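import Pool.Agent.H30.WD.Defs

/-!
# [H48 WD Mel] CHAPTER A of WILD: Mellin transforms of the functions in `TV lam 1`

* `mel`: every `f` in `TV lam 1` has a Mellin transform `Gamma (lam s) h s` in `Re s > 0`, `h` entire,
  `h (1 - s) = - h s`, bounded in vertical strips; the transform of `x f'(x)` is `-s` times this.
* `gdec`: `|Gamma (a + i t)| ≤ C / (1 + |t|)^k`.
* `inv0`, `inv1`: Mellin inversion for `f` and for `x f'(x)` on every line `Re s = σ > 0`.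
-/

set_option autoImplicit false

namespace Pool.Agent.H48.WD

open MeasureTheory Set Complex
open Pool.Agent.H30.WD

/-- the function `K` -/
noncomputable def K0 (lam x : ℝ) : ℝ := Real.exp (-(x ^ (1 / lam)))

/-- the function `x K'(x)` -/
noncomputable def K1 (lam x : ℝ) : ℝ := -(1 / lam) * (x ^ (1 / lam) * Real.exp (-(x ^ (1 / lam))))

theorem mexp (s : ℂ) (hs : 0 < s.re) :
    HasMellin (fun x : ℝ => ((Real.exp (-x) : ℝ) : ℂ)) s (Gamma s) := by
  constructor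
  · have h := Complex.GammaIntegral_convergent hs
    unfold MellinConvergent
    refine h.congr_fun ?_ measurableSet_Ioi
    intro x _
    simp only [smul_eq_mul]
    ring
  · rw [Complex.Gamma_eq_integral hs, Complex.GammaIntegral_eq_mellin]

theorem mK0 (lam : ℝ) (hlam : 0 < lam) (s : ℂ) (hs : 0 < s.re) :
    HasMellin (fun x : ℝ => ((K0 lam x : ℝ) : ℂ)) s ((lam : ℂ) * Gamma (lam * s)) := by
  have ha : (1 / lam : ℝ) ≠ 0 := by positivity
  have hs' : s / ((1 / lam : ℝ) : ℂ) = lam * s := by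
    have : (lam : ℂ) ≠ 0 := by exact_mod_cast hlam.ne'
    push_cast
    field_simp
  have hs2 : 0 < (lam * s : ℂ).re := by
    rw [Complex.re_ofReal_mul]
    positivity
  obtain ⟨h1, h2⟩ := mexp (lam * s) hs2
  constructor
  · have := (MellinConvergent.comp_rpow (f := fun x : ℝ => ((Real.exp (-x) : ℝ) : ℂ)) (s := s) ha).2
      (by rw [hs']; exact h1)
    exact this
  · have := mellin_comp_rpow (fun x : ℝ => ((Real.exp (-x) : ℝ) : ℂ)) s (1 / lam)
    rw [hs', h2] at this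
    have h3 : |1 / lam|⁻¹ = lam := by
      rw [abs_of_pos (by positivity)]
      simp
    rw [h3] at this
    rw [show (fun x : ℝ => ((K0 lam x : ℝ) : ℂ)) =
      fun t : ℝ => ((Real.exp (-(t ^ (1 / lam))) : ℝ) : ℂ) from rfl]
    rw [this]
    simp

theorem mK1 (lam : ℝ) (hlam : 0 < lam) (s : ℂ) (hs : 0 < s.re) :
    HasMellin (fun x : ℝ => ((K1 lam x : ℝ) : ℂ)) s (-s * ((lam : ℂ) * Gamma (lam * s))) := by
  have hl : (lam : ℂ) ≠ 0 := by exact_mod_cast hlam.ne'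
  have hs2 : 0 < (s + ((1 / lam : ℝ) : ℂ)).re := by
    rw [Complex.add_re, Complex.ofReal_re]
    positivity
  obtain ⟨h1, h2⟩ := mK0 lam hlam _ hs2
  have e1 : EqOn (fun x : ℝ => ((x : ℂ) ^ (s - 1)) •
      (((-(1 / lam) : ℝ) : ℂ) • ((x : ℂ) ^ ((1 / lam : ℝ) : ℂ) • ((K0 lam x : ℝ) : ℂ))))
      (fun x : ℝ => ((x : ℂ) ^ (s - 1)) • ((K1 lam x : ℝ) : ℂ)) (Ioi 0) := by
    intro x hx
    have hx0 : (0 : ℝ) ≤ x := le_of_lt hx
    simp only [smul_eq_mul]
    rw [← Complex.ofReal_cpow hx0]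
    unfold K1 K0
    push_cast
    ring
  have hm : mellin (fun x : ℝ => ((K1 lam x : ℝ) : ℂ)) s =
      mellin (fun x : ℝ => (((-(1 / lam) : ℝ) : ℂ) •
        ((x : ℂ) ^ ((1 / lam : ℝ) : ℂ) • ((K0 lam x : ℝ) : ℂ)))) s := by
    unfold mellin
    exact (setIntegral_congr_fun measurableSet_Ioi e1).symm
  constructor
  · have h3 := (MellinConvergent.cpow_smul (f := fun x : ℝ => ((K0 lam x : ℝ) : ℂ)) (s := s)
      (a := ((1 / lam : ℝ) : ℂ))).2 h1
    have h4 := h3.const_smul (((-(1 / lam) : ℝ) : ℂ))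
    unfold MellinConvergent at h4 ⊢
    exact h4.congr_fun e1 measurableSet_Ioi
  · rw [hm, mellin_const_smul, mellin_cpow_smul, h2]
    have h5 : (lam : ℂ) * (s + ((1 / lam : ℝ) : ℂ)) = lam * s + 1 := by
      push_cast
      field_simp
    rw [h5, Complex.Gamma_add_one]
    · simp only [smul_eq_mul]
      push_cast
      field_simp
    · intro h0
      have : (lam * s : ℂ).re = 0 := by rw [h0]; simp
      rw [Complex.re_ofReal_mul] at this
      have : 0 < lam * s.re := by positivity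
      linarith

theorem comb (F : ℝ → ℝ) (y : ℝ) (hy : 0 < y) (s m : ℂ)
    (h : HasMellin (fun x : ℝ => ((F x : ℝ) : ℂ)) s m) :
    HasMellin (fun x : ℝ => ((y ^ (1 / 2 : ℝ) * F (x * y) - y ^ (-(1 / 2) : ℝ) * F (x * y⁻¹) : ℝ) : ℂ)) s
      (m * ((y : ℂ) ^ (1 / 2 - s) - (y : ℂ) ^ (s - 1 / 2))) := by
  obtain ⟨h1, h2⟩ := h
  have hy0 : (y : ℂ) ≠ 0 := by exact_mod_cast hy.ne'
  have hyi : 0 < y⁻¹ := by positivity
  have c1 : MellinConvergent (fun x : ℝ => ((F (x * y) : ℝ) : ℂ)) s := by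
    have := (MellinConvergent.comp_mul_left (f := fun x : ℝ => ((F x : ℝ) : ℂ)) (s := s) hy).2 h1
    simpa only [mul_comm y] using this
  have c2 : MellinConvergent (fun x : ℝ => ((F (x * y⁻¹) : ℝ) : ℂ)) s := by
    have := (MellinConvergent.comp_mul_left (f := fun x : ℝ => ((F x : ℝ) : ℂ)) (s := s) hyi).2 h1
    simpa only [mul_comm y⁻¹] using this
  have m1 : mellin (fun x : ℝ => ((F (x * y) : ℝ) : ℂ)) s = (y : ℂ) ^ (-s) * m := by
    have := mellin_comp_mul_right (fun x : ℝ => ((F x : ℝ) : ℂ)) s hy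
    rw [h2] at this
    exact this
  have m2 : mellin (fun x : ℝ => ((F (x * y⁻¹) : ℝ) : ℂ)) s = (y : ℂ) ^ s * m := by
    have := mellin_comp_mul_right (fun x : ℝ => ((F x : ℝ) : ℂ)) s hyi
    rw [h2] at this
    rw [this, smul_eq_mul]
    congr 1
    rw [Complex.ofReal_inv, Complex.inv_cpow _ _ (by
      rw [Complex.arg_ofReal_of_nonneg hy.le]
      exact Real.pi_pos.ne), ← Complex.cpow_neg, neg_neg]
  have k1 := hasMellin_const_smul c1 (((y ^ (1 / 2 : ℝ) : ℝ) : ℂ))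
  have k2 := hasMellin_const_smul c2 (((y ^ (-(1 / 2) : ℝ) : ℝ) : ℂ))
  have k3 := hasMellin_sub k1.1 k2.1
  rw [k1.2, k2.2, m1, m2] at k3
  have e1 : (fun x : ℝ => ((y ^ (1 / 2 : ℝ) * F (x * y) - y ^ (-(1 / 2) : ℝ) * F (x * y⁻¹) : ℝ) : ℂ)) =
      fun t : ℝ => ((y ^ (1 / 2 : ℝ) : ℝ) : ℂ) • ((F (t * y) : ℝ) : ℂ) -
        ((y ^ (-(1 / 2) : ℝ) : ℝ) : ℂ) • ((F (t * y⁻¹) : ℝ) : ℂ) := by
    funext x
    simp only [smul_eq_mul]
    push_cast
    ring
  have e2 : m * ((y : ℂ) ^ (1 / 2 - s) - (y : ℂ) ^ (s - 1 / 2)) =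
      ((y ^ (1 / 2 : ℝ) : ℝ) : ℂ) • ((y : ℂ) ^ (-s) * m) -
        ((y ^ (-(1 / 2) : ℝ) : ℝ) : ℂ) • ((y : ℂ) ^ s * m) := by
    simp only [smul_eq_mul]
    rw [Complex.ofReal_cpow hy.le, Complex.ofReal_cpow hy.le]
    rw [show (1 / 2 - s : ℂ) = ((1 / 2 : ℝ) : ℂ) + (-s) by push_cast; ring,
      show (s - 1 / 2 : ℂ) = ((-(1 / 2) : ℝ) : ℂ) + s by push_cast; ring,
      Complex.cpow_add _ _ hy0, Complex.cpow_add _ _ hy0]
    ring
  rw [e1, e2]
  exact k3

end Pool.Agent.H48.WD
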